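import Pool.Agent.Q75.IvyIso

/-!
# More than two invariant ivy objects

The post-critically finite quadratic polynomial `p(z) = z ^ 2 - 2`, with post-critical set
`P = {-2, 2, ∞}`, has more than two invariant ivy objects.  Three of them, pairwise distinct, are
given by the arc `[-2, ∞]`, by the arc `[2, ∞] ∪ [∞, -2]`, and by the tripod which consists of
`[-2, 2]` and the vertical ray from `0` to `∞`.

All definitions are in `Pool/Agent/Q75/IvyDef.lean`: the sphere `Sph`, the map `quad c`, the
post-critical set `postcrit c`, finite topological trees `IsTree`, end points and branch points,
spanning trees `IsSpanning`, isotopy relative to `P` (`Isotopic`), the set `IvyObj c` of isotopy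
classes of spanning trees, dynamical tree pairs `IsDynPair`, and the pullback relation `Pullback`.
-/

set_option autoImplicit false

namespace Pool.Agent.Results.MP_6faade_an.ChebyshevIvy

open Q75.Ivy

/-- The polynomial `z ^ 2 - 2` is post-critically finite and it has more than two invariant ivy
objects. -/
theorem result :
    (postcrit (-2)).Finite ∧ 2 < Set.encard {x : IvyObj (-2) | Pullback (-2) x x} :=
  three_invariant

end Pool.Agent.Results.MP_6faade_an.ChebyshevIvy
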